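import Mathlib

set_option autoImplicit false

/-!
# The Koszul cochain complex of a module, and regular sequences
-/

namespace Q52.Lex

open Finset RingTheory.Sequence

open scoped Pointwise

variable {n : ℕ} {R : Type*} [CommRing R] {M : Type*} [AddCommGroup M] [Module R M]

/-- The Koszul sign. -/
def sg (i : Fin n) (F : Finset (Fin n)) : ℤ := (-1) ^ (F.filter (· < i)).card

/-- The Koszul differential. -/
def dd (x : Fin n → R) (f : Finset (Fin n) → M) (F : Finset (Fin n)) : M :=
  ∑ i ∈ F, sg i F • x i • f (F.erase i)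

/-- Contraction with a basis vector. -/
def ct (t : Fin n) (f : Finset (Fin n) → M) (F : Finset (Fin n)) : M :=
  if t ∈ F then 0 else sg t F • f (insert t F)

theorem sg_mul_self (i : Fin n) (F : Finset (Fin n)) : sg i F * sg i F = 1 := by
  rw [sg, ← mul_pow]
  simp

theorem sg_erase_self (i : Fin n) (F : Finset (Fin n)) : sg i (F.erase i) = sg i F := by
  rw [sg, sg]
  congr 2
  ext a
  simp only [mem_filter, mem_erase]
  constructor
  · rintro ⟨⟨-, h1⟩, h2⟩
    exact ⟨h1, h2⟩
  · rintro ⟨h1, h2⟩
    exact ⟨⟨h2.ne, h1⟩, h2⟩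

theorem sg_insert_self (i : Fin n) (F : Finset (Fin n)) : sg i (insert i F) = sg i F := by
  rw [← sg_erase_self, erase_insert_eq_erase, sg_erase_self]

theorem sg_insert {i t : Fin n} {F : Finset (Fin n)} (h : t ∉ F) :
    sg i (insert t F) = (if t < i then -1 else 1) * sg i F := by
  rw [sg, sg, filter_insert]
  split_ifs with h1
  · rw [card_insert_of_notMem (by simp [h]), pow_succ]
    ring
  · ring

theorem sg_rel {i t : Fin n} {F : Finset (Fin n)} (hi : i ∈ F) (ht : t ∉ F) :
    sg i F * sg t (F.erase i) = - (sg t F * sg i (insert t F)) := by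
  have hne : i ≠ t := fun h => ht (h ▸ hi)
  have h1 : sg t F = (if i < t then -1 else 1) * sg t (F.erase i) := by
    rw [← sg_insert (notMem_erase i F), insert_erase hi]
  rw [sg_insert ht, h1]
  rcases lt_or_gt_of_ne hne with h | h
  · rw [if_pos h, if_neg (not_lt.mpr h.le)]; ring
  · rw [if_pos h, if_neg (not_lt.mpr h.le)]; ring

theorem homotopy (x : Fin n → R) (t : Fin n) (f : Finset (Fin n) → M) (F : Finset (Fin n)) :
    dd x (ct t f) F + ct t (dd x f) F = x t • f F := by
  by_cases h : t ∈ F
  · rw [ct, if_pos h, add_zero, dd, sum_eq_single t]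
    · rw [ct, if_neg (notMem_erase t F), insert_erase h, sg_erase_self, smul_comm (x t), smul_smul,
        sg_mul_self, one_smul]
    · intro i _ hi
      rw [ct, if_pos (mem_erase.mpr ⟨hi.symm, h⟩), smul_zero, smul_zero]
    · exact fun h' => absurd h h'
  · rw [ct, if_neg h, dd, dd, sum_insert h, erase_insert h, smul_add, sg_insert_self, smul_smul,
      sg_mul_self, one_smul, add_left_comm, ← add_zero (x t • f F), add_assoc]
    congr 1
    rw [zero_add, smul_sum, ← sum_add_distrib]
    refine sum_eq_zero fun i hi => ?_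
    have hne : t ≠ i := fun h' => h (h' ▸ hi)
    rw [ct, if_neg (fun h' => h (mem_of_mem_erase h')), erase_insert_of_ne hne, smul_comm (x i),
      smul_smul, smul_smul, sg_rel hi h, neg_smul, neg_add_cancel]

theorem dd_add (x : Fin n → R) (f g : Finset (Fin n) → M) : dd x (f + g) = dd x f + dd x g := by
  funext F
  simp only [dd, Pi.add_apply, smul_add, sum_add_distrib]

theorem dd_sub (x : Fin n → R) (f g : Finset (Fin n) → M) : dd x (f - g) = dd x f - dd x g := by
  funext F
  simp only [dd, Pi.sub_apply, smul_sub, sum_sub_distrib]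

theorem dd_smul (x : Fin n → R) (a : R) (f : Finset (Fin n) → M) :
    dd x (a • f) = a • dd x f := by
  funext F
  simp only [dd, Pi.smul_apply, smul_sum]
  refine sum_congr rfl fun i _ => ?_
  rw [smul_comm a, smul_comm a]

theorem dd_map {N : Type*} [AddCommGroup N] [Module R N] (φ : M →ₗ[R] N) (x : Fin n → R)
    (f : Finset (Fin n) → M) : dd x (fun F => φ (f F)) = fun F => φ (dd x f F) := by
  funext F
  simp only [dd, map_sum, map_zsmul, map_smul]

theorem dd_dd_aux (x : Fin n → R) (m : ℕ) : ∀ (f : Finset (Fin n) → M) (F : Finset (Fin n)),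
    F.card = m → dd x (dd x f) F = 0 := by
  induction m with
  | zero =>
    intro f F hF
    rw [card_eq_zero] at hF
    subst hF
    simp [dd]
  | succ m ih =>
    intro f F hF
    obtain ⟨t, ht⟩ : F.Nonempty := card_pos.mp (by omega)
    have h1 : ct t (dd x (dd x f)) (F.erase t) = 0 := by
      have h2 := homotopy x t (dd x f) (F.erase t)
      have h3 : dd x (ct t (dd x f)) (F.erase t) = x t • dd x f (F.erase t) -
          dd x (dd x (ct t f)) (F.erase t) := by
        have h4 : ct t (dd x f) = x t • f - dd x (ct t f) := by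
          funext G
          rw [Pi.sub_apply, Pi.smul_apply, ← homotopy x t f G]
          abel
        rw [h4, dd_sub, dd_smul]
        rfl
      rw [h3, ih (ct t f) (F.erase t) (by rw [card_erase_of_mem ht]; omega), sub_zero] at h2
      simpa using h2
    rw [ct, if_neg (notMem_erase t F), insert_erase ht] at h1
    have h5 := congrArg (fun z => sg t (F.erase t) • z) h1
    simp only [smul_smul, sg_mul_self, one_smul, smul_zero] at h5
    exact h5

theorem dd_dd (x : Fin n → R) (f : Finset (Fin n) → M) : dd x (dd x f) = 0 :=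
  funext fun F => dd_dd_aux x _ f F rfl

/-- The degree `j` part of a cochain. -/
def tr (j : ℕ) (f : Finset (Fin n) → M) (F : Finset (Fin n)) : M := if F.card = j then f F else 0

theorem dd_tr (x : Fin n → R) (j : ℕ) (f : Finset (Fin n) → M) :
    dd x (tr j f) = tr (j + 1) (dd x f) := by
  funext F
  rw [tr]
  split_ifs with h
  · refine sum_congr rfl fun i hi => ?_
    rw [tr, if_pos (by rw [card_erase_of_mem hi]; omega)]
  · refine sum_eq_zero fun i hi => ?_
    rw [tr, if_neg, smul_zero, smul_zero]
    have := card_pos.mpr ⟨i, hi⟩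
    rw [card_erase_of_mem hi]
    omega

theorem tr_eq {j : ℕ} {f : Finset (Fin n) → M} (hf : ∀ F, F.card ≠ j → f F = 0) : tr j f = f := by
  funext F
  rw [tr]
  split_ifs with h
  · rfl
  · exact (hf F h).symm

/-- The vanishing of the `j`-th Koszul cohomology. -/
def HV (x : Fin n → R) (M : Type*) [AddCommGroup M] [Module R M] (j : ℕ) : Prop :=
  ∀ f : Finset (Fin n) → M, (∀ F, F.card ≠ j → f F = 0) → dd x f = 0 → ∃ g, dd x g = f

theorem HV.exists_tr {x : Fin n → R} {j : ℕ} (h : HV x M (j + 1)) (f : Finset (Fin n) → M)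
    (hf : ∀ F, F.card ≠ j + 1 → f F = 0) (hd : dd x f = 0) :
    ∃ g, (∀ F, F.card ≠ j → g F = 0) ∧ dd x g = f := by
  obtain ⟨g, hg⟩ := h f hf hd
  refine ⟨tr j g, fun F hF => if_neg hF, ?_⟩
  rw [dd_tr, hg, tr_eq hf]

/-- An element of the ideal generated by `x` kills the Koszul cohomology. -/
theorem exists_smul {x : Fin n → R} {a : R} (ha : a ∈ Ideal.span (Set.range x)) {j : ℕ}
    (f : Finset (Fin n) → M) (hf : ∀ F, F.card ≠ j → f F = 0) (hd : dd x f = 0) :
    ∃ g, (∀ F, F.card + 1 ≠ j → g F = 0) ∧ dd x g = a • f := by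
  obtain ⟨b, rfl⟩ := (Ideal.mem_span_range_iff_exists_fun).mp ha
  refine ⟨fun F => ∑ t, b t • ct t f F, fun F hF => sum_eq_zero fun t _ => ?_, ?_⟩
  · rw [ct]
    split_ifs with h
    · exact smul_zero _
    · rw [hf _ (by rw [card_insert_of_notMem h]; exact hF), smul_zero, smul_zero]
  · have h1 : ∀ t, dd x (ct t f) = x t • f := by
      intro t
      funext F
      rw [Pi.smul_apply, ← homotopy x t f F, hd]
      simp [ct]
    have h2 : dd x (fun F => ∑ t, b t • ct t f F) = ∑ t, b t • dd x (ct t f) := by
      funext F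
      simp only [dd, Finset.sum_apply, Pi.smul_apply, smul_sum]
      rw [sum_comm]
      refine sum_congr rfl fun t _ => sum_congr rfl fun i _ => ?_
      rw [smul_comm (b t), smul_comm (b t)]
    rw [h2, sum_smul]
    refine sum_congr rfl fun t _ => ?_
    rw [h1, smul_smul]

theorem hv_of_regular {x : Fin n → R} (rs : List R) :
    ∀ (M : Type _) [AddCommGroup M] [Module R M],
      (∀ a ∈ rs, a ∈ Ideal.span (Set.range x)) → IsWeaklyRegular M rs →
      ∀ j < rs.length, HV x M j := by
  induction rs with
  | nil => intro M _ _ _ _ j hj; simp at hj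
  | cons a rs ih =>
    intro M _ _ hmem hreg j hj f hf hd
    rw [isWeaklyRegular_cons_iff] at hreg
    obtain ⟨g, hg, hg'⟩ := exists_smul (hmem a (by simp)) f hf hd
    have key : ∃ h : Finset (Fin n) → M, ∀ F, g F - dd x h F ∈ a • (⊤ : Submodule R M) := by
      rcases Nat.eq_zero_or_pos j with rfl | hj'
      · exact ⟨0, fun F => by
          rw [hg F (by omega)]
          simp [dd]⟩
      · have h1 := ih (QuotSMulTop a M) (fun b hb => hmem b (by simp [hb])) hreg.2 (j - 1)
          (by simp at hj; omega) (fun F => Submodule.Quotient.mk (g F))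
          (fun F hF => by rw [hg F (by omega), Submodule.Quotient.mk_zero]) (by
            have h2 := dd_map (Submodule.mkQ (a • (⊤ : Submodule R M))) x g
            rw [hg'] at h2
            refine h2.trans ?_
            funext F
            rw [Submodule.mkQ_apply, Pi.zero_apply, Submodule.Quotient.mk_eq_zero, Pi.smul_apply]
            exact Submodule.smul_mem_pointwise_smul _ _ _ trivial)
        obtain ⟨h, hh⟩ := h1
        choose h' hh' using fun F => Submodule.Quotient.mk_surjective _ (h F)
        refine ⟨h', fun F => ?_⟩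
        rw [← Submodule.Quotient.mk_eq_zero, Submodule.Quotient.mk_sub, sub_eq_zero]
        have h2 := dd_map (Submodule.mkQ (a • (⊤ : Submodule R M))) x h'
        have h3 : (fun F => (Submodule.mkQ (a • (⊤ : Submodule R M))) (h' F)) = h := funext hh'
        rw [h3, hh] at h2
        exact congrFun h2 F
    obtain ⟨h, hh⟩ := key
    have h4 : ∀ F, ∃ y : M, a • y = g F - dd x h F := fun F => by
      obtain ⟨y, -, hy⟩ := Submodule.mem_smul_pointwise_iff_exists _ _ _ |>.mp (hh F)
      exact ⟨y, hy⟩
    choose y hy using h4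
    refine ⟨y, ?_⟩
    have h5 : a • y = g - dd x h := funext hy
    have h6 : a • dd x y = a • f := by
      rw [← dd_smul, h5, dd_sub, dd_dd, sub_zero, hg']
    funext F
    exact hreg.1 (congrFun h6 F)

theorem exists_regular [IsNoetherianRing R] {x : Fin n → R} (r : ℕ) :
    ∀ (M : Type _) [AddCommGroup M] [Module R M] [Module.Finite R M],
      Ideal.span (Set.range x) • (⊤ : Submodule R M) ≠ ⊤ → (∀ j < r, HV x M j) →
      ∃ rs : List R, rs.length = r ∧ (∀ a ∈ rs, a ∈ Ideal.span (Set.range x)) ∧
        IsRegular M rs := by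
  induction r with
  | zero =>
    intro M _ _ _ hM _
    have : Nontrivial M := (Submodule.nontrivial_iff R).mp (nontrivial_of_lt _ _ hM.lt_top)
    exact ⟨[], rfl, by simp, IsRegular.nil R M⟩
  | succ r ih =>
    intro M _ _ _ hM hv
    have h0 : Subsingleton ((R ⧸ Ideal.span (Set.range x)) →ₗ[R] M) := by
      refine ⟨fun φ ψ => ?_⟩
      have key : ∀ φ : (R ⧸ Ideal.span (Set.range x)) →ₗ[R] M, φ 1 = 0 := by
        intro φ
        have h1 : ∀ i, x i • φ 1 = 0 := by
          intro i
          rw [← map_smul]
          have h2 : x i • (1 : R ⧸ Ideal.span (Set.range x)) = 0 := by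
            rw [Algebra.smul_def, mul_one]
            exact Ideal.Quotient.eq_zero_iff_mem.mpr (Ideal.subset_span ⟨i, rfl⟩)
          rw [h2, map_zero]
        obtain ⟨g, hg⟩ := hv 0 (by omega) (fun F => if F = ∅ then φ 1 else 0)
          (fun F hF => if_neg fun h => hF (by rw [h]; rfl)) (by
            funext F
            refine sum_eq_zero fun i _ => ?_
            dsimp only
            split_ifs
            · rw [h1, smul_zero]
            · rw [smul_zero, smul_zero])
        have h3 := congrFun hg ∅
        simpa [dd] using h3.symm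
      ext
      simpa using (key φ).trans (key ψ).symm
    obtain ⟨a, ha, hreg⟩ := IsSMulRegular.subsingleton_linearMap_iff.mp h0
    rw [Ideal.annihilator_quotient] at ha
    have h1 : Ideal.span (Set.range x) • (⊤ : Submodule R (QuotSMulTop a M)) ≠ ⊤ := by
      intro eq
      refine hM ?_
      have h2 := congrArg (Submodule.comap (Submodule.mkQ _)) eq
      simpa [Submodule.comap_smul_top_of_surjective _ _ (Submodule.mkQ_surjective _),
        Submodule.smul_mono_left ((Ideal.span_singleton_le_iff_mem _).mpr ha),
        ← Submodule.ideal_span_singleton_smul] using h2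
    obtain ⟨rs, hlen, hmem, hrs⟩ := ih (QuotSMulTop a M) h1 (by
      intro j hj f hf hd
      choose f' hf' using fun F => Submodule.Quotient.mk_surjective _ (f F)
      have h2 : ∀ F, dd x (tr j f') F ∈ a • (⊤ : Submodule R M) := by
        intro F
        rw [← Submodule.Quotient.mk_eq_zero]
        have h3 := dd_map (Submodule.mkQ (a • (⊤ : Submodule R M))) x (tr j f')
        have h4 : (fun F => (Submodule.mkQ (a • (⊤ : Submodule R M))) (tr j f' F)) = f := by
          funext G
          rw [tr]
          split_ifs with h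
          · exact hf' G
          · rw [map_zero, hf G h]
        rw [h4, hd] at h3
        exact (congrFun h3 F).symm
      have h4 : ∀ F, ∃ y : M, a • y = dd x (tr j f') F := fun F => by
        obtain ⟨y, -, hy⟩ := Submodule.mem_smul_pointwise_iff_exists _ _ _ |>.mp (h2 F)
        exact ⟨y, hy⟩
      choose g hg using h4
      have hg' : a • g = dd x (tr j f') := funext hg
      have hg0 : ∀ F, F.card ≠ j + 1 → g F = 0 := by
        intro F hF
        refine hreg ?_
        change a • g F = a • 0
        rw [hg, smul_zero, dd_tr, tr, if_neg hF]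
      have hgd : dd x g = 0 := by
        funext F
        refine hreg ?_
        change a • dd x g F = a • 0
        rw [smul_zero, ← Pi.smul_apply, ← dd_smul, hg', dd_dd]
        rfl
      obtain ⟨h, hh0, hh⟩ := (hv (j + 1) (by omega)).exists_tr g hg0 hgd
      obtain ⟨l, hl⟩ := hv j (by omega) (tr j f' - a • h)
        (fun F hF => by
          rw [Pi.sub_apply, Pi.smul_apply, hh0 F hF, tr, if_neg hF, smul_zero, sub_zero])
        (by rw [dd_sub, dd_smul, hh, hg', sub_self])
      refine ⟨fun F => Submodule.Quotient.mk (l F), ?_⟩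
      have h5 := dd_map (Submodule.mkQ (a • (⊤ : Submodule R M))) x l
      refine h5.trans ?_
      funext F
      rw [hl, Submodule.mkQ_apply, Pi.sub_apply, Submodule.Quotient.mk_sub]
      have h6 : (Submodule.Quotient.mk ((a • h) F) : M ⧸ (a • (⊤ : Submodule R M))) = 0 := by
        rw [Submodule.Quotient.mk_eq_zero]
        exact Submodule.smul_mem_pointwise_smul _ _ _ trivial
      rw [h6, sub_zero, tr]
      split_ifs with h
      · exact hf' F
      · rw [Submodule.Quotient.mk_zero, hf F h])
    refine ⟨a :: rs, by simp [hlen], ?_, ?_⟩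
    · intro b hb
      rcases List.mem_cons.mp hb with rfl | hb
      · exact ha
      · exact hmem b hb
    · exact (isRegular_cons_iff _ _ _).mpr ⟨hreg, hrs⟩

end Q52.Lex
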