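import Mathlib

set_option autoImplicit false

/-!
# The lexicographic order on squarefree monomials
-/

namespace Q52.Lex

open Finset

variable {n : ℕ}

/-- Lexicographic order on squarefree monomials of the same degree, given by their supports: the
first index at which the exponents of the two monomials differ belongs to `A`. -/
def LexGT (A B : Finset (Fin n)) : Prop := ∃ s, s ∈ A ∧ s ∉ B ∧ ∀ t < s, (t ∈ A ↔ t ∈ B)

/-- The non-strict order. -/
def LexGE (A B : Finset (Fin n)) : Prop := A = B ∨ LexGT A B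

/-- The support of `w₀ = x_{i₂ - 1} ⋯ x_{i_q - 1} x_n` where `u` is the support
`{1, i₂, …, i_q}`. -/
def shift {m : ℕ} (u : Finset (Fin (m + 1))) : Finset (Fin (m + 1)) :=
  univ.filter fun t => t = Fin.last m ∨ ∃ i ∈ u, (i : ℕ) = t + 1

/-- The supports of the squarefree monomials `w` of degree `q` with `u ≥ w ≥ v`. -/
def seg (q : ℕ) (u v : Finset (Fin n)) : Set (Finset (Fin n)) :=
  {F | F.card = q ∧ LexGE u F ∧ LexGE F v}

theorem LexGT.trans {A B C : Finset (Fin n)} (h : LexGT A B) (h' : LexGT B C) : LexGT A C := by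
  obtain ⟨s, h1, h2, h3⟩ := h
  obtain ⟨s', h1', h2', h3'⟩ := h'
  rcases lt_trichotomy s s' with h | h | h
  · exact ⟨s, h1, fun hc => h2 ((h3' s h).mpr hc), fun t ht => (h3 t ht).trans (h3' t (ht.trans h))⟩
  · subst h
    exact absurd h1' h2
  · exact ⟨s', (h3 s' h).mpr h1', h2', fun t ht => (h3 t (ht.trans h)).trans (h3' t ht)⟩

theorem LexGT.ne {A B : Finset (Fin n)} (h : LexGT A B) : A ≠ B := by
  rintro rfl
  obtain ⟨s, h1, h2, -⟩ := h
  exact h2 h1

theorem LexGT.not_ge {A B : Finset (Fin n)} (h : LexGT A B) : ¬ LexGE B A := by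
  rintro (h' | h')
  · exact h.ne h'.symm
  · exact (h.trans h').ne rfl

theorem LexGE.trans {A B C : Finset (Fin n)} (h : LexGE A B) (h' : LexGE B C) : LexGE A C := by
  rcases h with rfl | h
  · exact h'
  · rcases h' with rfl | h'
    · exact Or.inr h
    · exact Or.inr (h.trans h')

theorem LexGT.trans_ge {A B C : Finset (Fin n)} (h : LexGT A B) (h' : LexGE B C) : LexGT A C := by
  rcases h' with rfl | h'
  · exact h
  · exact h.trans h'

/-- The first difference. -/
theorem exists_first {A B : Finset (Fin n)} (h : A ≠ B) :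
    ∃ s, ¬ (s ∈ A ↔ s ∈ B) ∧ ∀ t < s, (t ∈ A ↔ t ∈ B) := by
  have h1 : (univ.filter fun s => ¬ (s ∈ A ↔ s ∈ B)).Nonempty := by
    by_contra hc
    rw [not_nonempty_iff_eq_empty, filter_eq_empty_iff] at hc
    apply h
    ext s
    have := hc (mem_univ s)
    tauto
  refine ⟨_, (mem_filter.mp (min'_mem _ h1)).2, fun t ht => ?_⟩
  by_contra hc
  exact absurd (min'_le _ t (mem_filter.mpr ⟨mem_univ _, hc⟩)) (not_le.mpr ht)

theorem lexGE_total (A B : Finset (Fin n)) : LexGE A B ∨ LexGT B A := by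
  by_cases h : A = B
  · exact Or.inl (Or.inl h)
  · obtain ⟨s, h1, h2⟩ := exists_first h
    by_cases hs : s ∈ A
    · exact Or.inl (Or.inr ⟨s, hs, fun hc => h1 ⟨fun _ => hc, fun _ => hs⟩, h2⟩)
    · refine Or.inr ⟨s, ?_, hs, fun t ht => (h2 t ht).symm⟩
      by_contra hc
      exact h1 ⟨fun h => absurd h hs, fun h => absurd h hc⟩

theorem not_lexGE {A B : Finset (Fin n)} (h : ¬ LexGE A B) : LexGT B A :=
  (lexGE_total A B).resolve_left h

variable {m : ℕ}

theorem mem_shift {u : Finset (Fin (m + 1))} {t : Fin (m + 1)} :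
    t ∈ shift u ↔ t = Fin.last m ∨ ∃ i ∈ u, (i : ℕ) = t + 1 := by
  simp [shift]

theorem shift_mono {u u' : Finset (Fin (m + 1))} (h0' : 0 ∈ u') (h : LexGE u u') :
    LexGE (shift u) (shift u') := by
  rcases h with rfl | ⟨s, h1, h2, h3⟩
  · exact Or.inl rfl
  · have hs : (s : ℕ) ≠ 0 := fun h => h2 (by
      have : s = 0 := Fin.ext h
      rw [this]; exact h0')
    have hs' := s.2
    refine Or.inr ⟨⟨s - 1, by omega⟩, ?_, ?_, ?_⟩
    · rw [mem_shift]
      exact Or.inr ⟨s, h1, by simp; omega⟩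
    · rw [mem_shift]
      rintro (h | ⟨i, hi, hi'⟩)
      · rw [Fin.ext_iff] at h
        simp at h
        omega
      · have : i = s := Fin.ext (by simp at hi'; omega)
        exact h2 (this ▸ hi)
    · intro t ht
      rw [Fin.lt_def] at ht
      simp at ht
      rw [mem_shift, mem_shift]
      refine or_congr Iff.rfl ⟨?_, ?_⟩
      · rintro ⟨i, hi, hi'⟩
        exact ⟨i, (h3 i (by rw [Fin.lt_def]; omega)).mp hi, hi'⟩
      · rintro ⟨i, hi, hi'⟩
        exact ⟨i, (h3 i (by rw [Fin.lt_def]; omega)).mpr hi, hi'⟩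

end Q52.Lex
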