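import Mathlib
import Pool.Agent.Q52.Lex.Koszul
import Pool.Agent.Q52.Lex.Order

set_option autoImplicit false

/-!
# Cocycles supported on a lexicographic segment
-/

namespace Q52.Lex

open Finset

variable {m : ℕ} {k : Type*} [Field k]

theorem me {G : Finset (Fin (m + 1))} {a x : Fin (m + 1)} (h : x ≠ a) (h' : x ∈ G) :
    x ∈ (↑(G.erase a) : Set (Fin (m + 1))) := mem_coe.mpr (mem_erase.mpr ⟨h, h'⟩)

section exist

/-- The index of the block. -/
def bl (u : Finset (Fin (m + 1))) (t : Fin (m + 1)) : ℕ := (u.filter (· ≤ t)).card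

theorem bl_mono (u : Finset (Fin (m + 1))) {s t : Fin (m + 1)} (h : s ≤ t) : bl u s ≤ bl u t :=
  card_le_card fun _ ha => by
    rw [mem_filter] at ha ⊢
    exact ⟨ha.1, ha.2.trans h⟩

theorem bl_lt (u : Finset (Fin (m + 1))) {s t i : Fin (m + 1)} (hi : i ∈ u) (h : s < i)
    (h' : i ≤ t) : bl u s < bl u t := by
  refine card_lt_card ⟨fun a ha => ?_, fun hc => ?_⟩
  · rw [mem_filter] at ha ⊢
    exact ⟨ha.1, ha.2.trans (h.le.trans h')⟩
  · have := hc (mem_filter.mpr ⟨hi, h'⟩)
    rw [mem_filter] at this
    exact absurd this.2 (not_le.mpr h)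

theorem bl_pos {u : Finset (Fin (m + 1))} (h0 : 0 ∈ u) (t : Fin (m + 1)) : 1 ≤ bl u t :=
  card_pos.mpr ⟨0, mem_filter.mpr ⟨h0, Fin.zero_le t⟩⟩

theorem bl_le (u : Finset (Fin (m + 1))) (t : Fin (m + 1)) : bl u t ≤ u.card :=
  card_le_card (filter_subset _ _)

/-- The indicator of the transversals of the blocks. -/
noncomputable def psi (k : Type*) [Field k] (u : Finset (Fin (m + 1)))
    (F : Finset (Fin (m + 1))) : k := by
  classical
  exact if F.card = u.card ∧ Set.InjOn (bl u) F then 1 else 0

variable {u : Finset (Fin (m + 1))}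

theorem psi_ne {F : Finset (Fin (m + 1))} (h : psi k u F ≠ 0) :
    F.card = u.card ∧ Set.InjOn (bl u) F := by
  rw [psi] at h
  by_contra hc
  exact h (if_neg hc)

theorem psi_pos {F : Finset (Fin (m + 1))} (h : F.card = u.card ∧ Set.InjOn (bl u) F) :
    psi k u F = 1 := by
  rw [psi, if_pos h]

theorem image_bl (h0 : 0 ∈ u) {F : Finset (Fin (m + 1))} (hc : F.card = u.card)
    (hi : Set.InjOn (bl u) F) (t : Fin (m + 1)) : ∃ f ∈ F, bl u f = bl u t := by
  have h1 : F.image (bl u) = Icc 1 u.card := by
    apply eq_of_subset_of_card_le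
    · intro a ha
      obtain ⟨f, -, rfl⟩ := mem_image.mp ha
      exact mem_Icc.mpr ⟨bl_pos h0 f, bl_le u f⟩
    · rw [card_image_of_injOn hi, Nat.card_Icc, hc]
      omega
  have h2 : bl u t ∈ F.image (bl u) := by
    rw [h1]
    exact mem_Icc.mpr ⟨bl_pos h0 t, bl_le u t⟩
  exact mem_image.mp h2

theorem sg_pair {G : Finset (Fin (m + 1))} {a b : Fin (m + 1)} (ha : a ∈ G) (hb : b ∈ G)
    (hab : a < b) (h : bl u a = bl u b) (hi : Set.InjOn (bl u) (G.erase a)) :
    sg a G + sg b G = 0 := by
  have h1 : G.filter (· < b) = insert a (G.filter (· < a)) := by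
    ext l
    simp only [mem_filter, mem_insert]
    constructor
    · rintro ⟨hl, hlb⟩
      by_cases hla : l = a
      · exact Or.inl hla
      · refine Or.inr ⟨hl, ?_⟩
        by_contra hc
        have h2 : bl u l = bl u b := le_antisymm (bl_mono u hlb.le)
          (h ▸ bl_mono u (not_lt.mp hc))
        have h3 := hi (me hla hl) (me hab.ne' hb) h2
        exact hlb.ne h3
    · rintro (rfl | ⟨hl, hla⟩)
      · exact ⟨ha, hab⟩
      · exact ⟨hl, hla.trans hab⟩
  rw [sg, sg, h1, card_insert_of_notMem (by simp), pow_succ]
  ring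

theorem dd_psi (h0 : 0 ∈ u) : dd (fun _ => (1 : k)) (psi k u) = 0 := by
  funext G
  rw [Pi.zero_apply, dd]
  by_cases h : ∃ a ∈ G, psi k u (G.erase a) ≠ 0
  · obtain ⟨a, ha, h1⟩ := h
    obtain ⟨hc, hi⟩ := psi_ne h1
    obtain ⟨b, hb, hab⟩ := image_bl h0 hc hi a
    obtain ⟨hba, hbG⟩ := mem_erase.mp hb
    have hi' : Set.InjOn (bl u) (G.erase b) := by
      intro x hx y hy hxy
      rw [mem_coe, mem_erase] at hx hy
      by_cases hxa : x = a
      · by_cases hya : y = a
        · rw [hxa, hya]
        · exfalso
          apply hy.1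
          refine hi (me hya hy.2) (me hba hbG) ?_
          rw [← hxy, hxa, hab]
      · by_cases hya : y = a
        · exfalso
          apply hx.1
          refine hi (me hxa hx.2) (me hba hbG) ?_
          rw [hxy, hya, hab]
        · exact hi (me hxa hx.2) (me hya hy.2) hxy
    have hc' : (G.erase b).card = u.card := by
      rw [card_erase_of_mem ha] at hc
      rw [card_erase_of_mem hbG, hc]
    have h2 : ∑ i ∈ G, sg i G • (1 : k) • psi k u (G.erase i) =
        ∑ i ∈ {a, b}, sg i G • (1 : k) • psi k u (G.erase i) := by
      symm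
      refine sum_subset (by
        intro x hx
        rcases mem_insert.mp hx with rfl | hx
        · exact ha
        · rw [mem_singleton.mp hx]; exact hbG) fun x _ hx => ?_
      have h3 : psi k u (G.erase x) = 0 := by
        by_contra h4
        obtain ⟨-, h5⟩ := psi_ne h4
        have hxa : a ≠ x := fun h => hx (by simp [h])
        have hxb : b ≠ x := fun h => hx (by simp [h])
        exact hba (h5 (me hxb hbG) (me hxa ha) hab)
      rw [h3, smul_zero, smul_zero]
    rw [h2, sum_pair hba.symm, psi_pos ⟨hc, hi⟩, psi_pos ⟨hc', hi'⟩, smul_eq_mul, mul_one,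
      ← add_smul]
    rcases lt_or_gt_of_ne hba with h | h
    · rw [add_comm, sg_pair hbG ha h hab hi', zero_smul]
    · rw [sg_pair ha hbG h hab.symm hi, zero_smul]
  · push Not at h
    refine sum_eq_zero fun i hi => ?_
    rw [h i hi, smul_zero, smul_zero]

theorem psi_self : psi k u u = 1 := by
  refine psi_pos ⟨rfl, fun a ha b hb hab => ?_⟩
  rw [mem_coe] at ha hb
  rcases lt_trichotomy a b with h | h | h
  · exact absurd hab (bl_lt u hb h le_rfl).ne
  · exact h
  · exact absurd hab (bl_lt u ha h le_rfl).ne'

theorem psi_supp (h0 : 0 ∈ u) {F : Finset (Fin (m + 1))} (h : psi k u F ≠ 0) :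
    LexGE u F ∧ LexGE F (shift u) := by
  obtain ⟨hc, hi⟩ := psi_ne h
  constructor
  · by_cases hF : u = F
    · exact Or.inl hF
    · obtain ⟨s, h1, h2⟩ := exists_first hF
      by_cases hs : s ∈ u
      · exact Or.inr ⟨s, hs, fun hc => h1 ⟨fun _ => hc, fun _ => hs⟩, h2⟩
      · have hsF : s ∈ F := by
          by_contra hc
          exact h1 ⟨fun h => absurd h hs, fun h => absurd h hc⟩
        exfalso
        have h3 : (u.filter (· ≤ s)).Nonempty := ⟨0, mem_filter.mpr ⟨h0, Fin.zero_le s⟩⟩
        obtain ⟨hi1, hi2⟩ := mem_filter.mp (max'_mem _ h3)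
        have hi3 : (u.filter (· ≤ s)).max' h3 < s := lt_of_le_of_ne hi2 fun h => hs (h ▸ hi1)
        have h4 : bl u ((u.filter (· ≤ s)).max' h3) = bl u s := by
          refine le_antisymm (bl_mono u hi2) (card_le_card fun a ha => ?_)
          rw [mem_filter]
          exact ⟨(mem_filter.mp ha).1, le_max' _ _ ha⟩
        exact hi3.ne (hi ((h2 _ hi3).mp hi1) hsF h4)
  · by_cases hF : F = shift u
    · exact Or.inl hF
    · obtain ⟨s, h1, h2⟩ := exists_first hF
      by_cases hs : s ∈ F
      · exact Or.inr ⟨s, hs, fun hc => h1 ⟨fun _ => hc, fun _ => hs⟩, h2⟩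
      · have hsF : s ∈ shift u := by
          by_contra hc
          exact h1 ⟨fun h => absurd h hs, fun h => absurd h hc⟩
        exfalso
        obtain ⟨f, hf, hfs⟩ := image_bl h0 hc hi s
        have hne : f ≠ s := fun h => hs (h ▸ hf)
        rcases lt_or_gt_of_ne hne with hlt | hgt
        · have h3 := (h2 f hlt).mp hf
          rcases mem_shift.mp h3 with h4 | ⟨i, hi1, hi2⟩
          · rw [h4] at hlt
            exact absurd (Fin.le_last s) (not_le.mpr hlt)
          · refine absurd hfs (bl_lt u hi1 ?_ ?_).ne
            · rw [Fin.lt_def]; omega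
            · rw [Fin.lt_def] at hlt
              rw [Fin.le_def]; omega
        · rcases mem_shift.mp hsF with h4 | ⟨i, hi1, hi2⟩
          · rw [h4] at hgt
            exact absurd (Fin.le_last f) (not_le.mpr hgt)
          · refine absurd hfs.symm (bl_lt u hi1 ?_ ?_).ne
            · rw [Fin.lt_def]; omega
            · rw [Fin.lt_def] at hgt
              rw [Fin.le_def]; omega

/-- If `w₀ ≥ v` there is a coboundary with support in the segment. -/
theorem exists_cochain (h0 : 0 ∈ u) {v : Finset (Fin (m + 1))} (h : LexGE (shift u) v) :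
    ∃ c : Finset (Fin (m + 1)) → k, (∀ F, F.card ≠ u.card - 1 → c F = 0) ∧
      (∀ F, F ∉ seg u.card u v → dd (fun _ => (1 : k)) c F = 0) ∧
      dd (fun _ => (1 : k)) c ≠ 0 := by
  have h1 : dd (fun _ => (1 : k)) (ct 0 (psi k u)) = psi k u := by
    funext F
    have h2 := homotopy (fun _ => (1 : k)) 0 (psi k u) F
    rw [dd_psi h0] at h2
    simpa [ct] using h2
  refine ⟨ct 0 (psi k u), fun F hF => ?_, fun F hF => ?_, fun hc => ?_⟩
  · rw [ct]
    split_ifs with h2
    · rfl
    · have h3 : psi k u (insert 0 F) = 0 := by
        by_contra h4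
        obtain ⟨h5, -⟩ := psi_ne h4
        rw [card_insert_of_notMem h2] at h5
        omega
      rw [h3, smul_zero]
  · rw [h1]
    by_contra h2
    obtain ⟨h3, h4⟩ := psi_supp h0 h2
    exact hF ⟨(psi_ne h2).1, h3, h4.trans h⟩
  · rw [h1] at hc
    have h2 := congrFun hc u
    rw [psi_self] at h2
    exact one_ne_zero h2

end exist

section vanish

/-- The cyclic predecessor. -/
def pr (t : Fin (m + 1)) : Fin (m + 1) :=
  if h : (t : ℕ) = 0 then Fin.last m else ⟨t - 1, by omega⟩

theorem iter (A : Finset (Fin (m + 1))) : ∀ ψ : Finset (Fin (m + 1)) → k,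
    dd (fun _ => (1 : k)) ψ = 0 → (∀ i ∈ A, pr i ≠ i) →
    (∀ t : Fin (m + 1) → Fin (m + 1), (∀ i ∈ A, t i = i ∨ t i = pr i) → Set.InjOn t A →
      (∃ i ∈ A, t i ≠ i) → ψ (A.image t) = 0) → ψ A = 0 := by
  induction A using Finset.induction_on with
  | empty =>
    intro ψ hd _ _
    have h := congrFun hd {0}
    simpa [dd, sg] using h
  | insert a A ha ih =>
    intro ψ hd hp H
    have hne : ∀ x ∈ A, x ≠ a := fun x hx h => ha (h ▸ hx)
    have hpa : pr a ≠ a := hp a (mem_insert_self a A)
    set ψ' : Finset (Fin (m + 1)) → k := ct a ψ - ct (pr a) ψ with hψ'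
    have hdt : ∀ t, dd (fun _ => (1 : k)) (ct t ψ) = ψ := by
      intro t
      funext F
      have h2 := homotopy (fun _ => (1 : k)) t ψ F
      rw [hd] at h2
      simpa [ct] using h2
    have h1 : dd (fun _ => (1 : k)) ψ' = 0 := by
      rw [hψ', dd_sub, hdt, hdt, sub_self]
    have h2 : ψ' A = 0 := by
      refine ih ψ' h1 (fun i hi => hp i (mem_insert_of_mem hi)) fun t ht hinj hex => ?_
      obtain ⟨i, hi, hti⟩ := hex
      have key : ∀ c : Fin (m + 1), (c = a ∨ c = pr a) → c ∉ A.image t →
          ψ (insert c (A.image t)) = 0 := by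
        intro c hc hcA
        have h3 := H (Function.update t a c) ?_ ?_ ?_
        · rw [image_insert, Function.update_self] at h3
          have h4 : A.image (Function.update t a c) = A.image t := by
            refine image_congr fun x hx => ?_
            exact Function.update_of_ne (hne _ hx) _ _
          rw [h4] at h3
          exact h3
        · intro x hx
          rcases mem_insert.mp hx with rfl | hx
          · rw [Function.update_self]; exact hc
          · rw [Function.update_of_ne (hne _ hx)]
            exact ht x hx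
        · intro x hx y hy hxy
          rw [mem_coe, mem_insert] at hx hy
          rcases hx with rfl | hx
          · rcases hy with rfl | hy
            · rfl
            · exfalso
              rw [Function.update_self, Function.update_of_ne (hne _ hy)] at hxy
              exact hcA (hxy ▸ mem_image_of_mem t hy)
          · rcases hy with rfl | hy
            · exfalso
              rw [Function.update_self, Function.update_of_ne (hne _ hx)] at hxy
              exact hcA (hxy ▸ mem_image_of_mem t hx)
            · rw [Function.update_of_ne (hne _ hx),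
                Function.update_of_ne (hne _ hy)] at hxy
              exact hinj hx hy hxy
        · refine ⟨i, mem_insert_of_mem hi, ?_⟩
          rw [Function.update_of_ne (hne _ hi)]
          exact hti
      rw [hψ', Pi.sub_apply, ct, ct]
      have h5 : ∀ c : Fin (m + 1), (c = a ∨ c = pr a) →
          (if c ∈ A.image t then (0 : k) else sg c (A.image t) • ψ (insert c (A.image t))) = 0 := by
        intro c hc
        split_ifs with h
        · rfl
        · rw [key c hc h, smul_zero]
      rw [h5 a (Or.inl rfl), h5 (pr a) (Or.inr rfl), sub_zero]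
    have h6 : ct (pr a) ψ A = 0 := by
      rw [ct]
      split_ifs with h
      · rfl
      · have h3 := H (Function.update id a (pr a)) ?_ ?_ ?_
        · rw [image_insert, Function.update_self] at h3
          have h4 : A.image (Function.update id a (pr a)) = A := by
            conv_rhs => rw [← image_id (s := A)]
            refine image_congr fun x hx => ?_
            exact Function.update_of_ne (hne _ hx) _ _
          rw [h4] at h3
          rw [h3, smul_zero]
        · intro x hx
          rcases mem_insert.mp hx with rfl | hx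
          · rw [Function.update_self]; exact Or.inr rfl
          · rw [Function.update_of_ne (hne _ hx)]
            exact Or.inl rfl
        · intro x hx y hy hxy
          rw [mem_coe, mem_insert] at hx hy
          rcases hx with rfl | hx
          · rcases hy with rfl | hy
            · rfl
            · exfalso
              rw [Function.update_self, Function.update_of_ne (hne _ hy)] at hxy
              rw [id] at hxy
              exact h (hxy ▸ hy)
          · rcases hy with rfl | hy
            · exfalso
              rw [Function.update_self, Function.update_of_ne (hne _ hx)] at hxy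
              rw [id] at hxy
              exact h (hxy ▸ hx)
            · rwa [Function.update_of_ne (hne _ hx),
                Function.update_of_ne (hne _ hy), id, id] at hxy
        · refine ⟨a, mem_insert_self a A, ?_⟩
          rw [Function.update_self]
          exact hpa
    rw [hψ', Pi.sub_apply, h6, sub_zero, ct, if_neg ha] at h2
    have h7 := congrArg (fun z => sg a A • z) h2
    simp only [smul_smul, sg_mul_self, one_smul, smul_zero] at h7
    exact h7

end vanish

end Q52.Lex
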