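import Mathlib
import Pool.Agent.Q52.Lex.Koszul

set_option autoImplicit false

/-!
# Koszul cohomology of squarefree monomial ideals generated in one degree
-/

namespace Q52.Lex

open Finset MvPolynomial

variable {n : ℕ} {k : Type*} [Field k]

/-- The exponent of a squarefree monomial. -/
noncomputable def ee (F : Finset (Fin n)) : Fin n →₀ ℕ := ∑ i ∈ F, Finsupp.single i 1

theorem ee_apply (F : Finset (Fin n)) (t : Fin n) : ee F t = if t ∈ F then 1 else 0 := by
  simp [ee, Finsupp.single_apply]

theorem prod_X (F : Finset (Fin n)) : ∏ i ∈ F, (X i : MvPolynomial (Fin n) k) =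
    monomial (ee F) 1 := by
  rw [ee, monomial_sum_one]
  rfl

theorem ee_insert {F : Finset (Fin n)} {t : Fin n} (h : t ∉ F) :
    ee (insert t F) = Finsupp.single t 1 + ee F := by
  rw [ee, sum_insert h, ee]

theorem ee_erase {F : Finset (Fin n)} {t : Fin n} (h : t ∈ F) :
    ee F = Finsupp.single t 1 + ee (F.erase t) := by
  rw [← ee_insert (notMem_erase t F), insert_erase h]

theorem ee_compl_erase {F : Finset (Fin n)} {t : Fin n} (h : t ∈ F) :
    ee (F.erase t)ᶜ = Finsupp.single t 1 + ee Fᶜ := by
  rw [compl_erase, ee_insert (by simpa using h)]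

theorem ee_compl_insert {F : Finset (Fin n)} {t : Fin n} (h : t ∉ F) :
    ee Fᶜ = Finsupp.single t 1 + ee (insert t F)ᶜ := by
  rw [compl_insert, ← ee_erase (mem_compl.mpr h)]

/-- The ideal generated by the squarefree monomials with support in `L`. -/
noncomputable def sqIdeal (k : Type*) [Field k] (L : Set (Finset (Fin n))) :
    Ideal (MvPolynomial (Fin n) k) :=
  Ideal.span ((fun F : Finset (Fin n) => ∏ i ∈ F, X i) '' L)

theorem mem_sqIdeal {L : Set (Finset (Fin n))} {p : MvPolynomial (Fin n) k} :
    p ∈ sqIdeal k L ↔ ∀ m ∈ p.support, ∃ F ∈ L, F ⊆ m.support := by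
  have h1 : (fun F : Finset (Fin n) => ∏ i ∈ F, (X i : MvPolynomial (Fin n) k)) '' L =
      (fun s => monomial s (1 : k)) '' (ee '' L) := by
    rw [Set.image_image]
    refine Set.image_congr fun F _ => prod_X F
  rw [sqIdeal, h1, mem_ideal_span_monomial_image]
  refine forall₂_congr fun m _ => ?_
  constructor
  · rintro ⟨_, ⟨F, hF, rfl⟩, h⟩
    refine ⟨F, hF, fun i hi => ?_⟩
    have h2 := h i
    rw [ee_apply, if_pos hi] at h2
    rw [Finsupp.mem_support_iff]
    omega
  · rintro ⟨F, hF, h⟩
    refine ⟨_, ⟨F, hF, rfl⟩, fun i => ?_⟩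
    rw [ee_apply]
    split_ifs with hi
    · have := h hi
      rw [Finsupp.mem_support_iff] at this
      omega
    · omega

/-- The part of a polynomial where the function `τ` of the monomials takes the value `t`. -/
noncomputable def flt (τ : (Fin n →₀ ℕ) → Fin n) (t : Fin n) :
    MvPolynomial (Fin n) k →+ MvPolynomial (Fin n) k where
  toFun p := ∑ m ∈ p.support, if τ m = t then monomial m (coeff m p) else 0
  map_zero' := by simp
  map_add' p q := by
    have h : ∀ r : MvPolynomial (Fin n) k, ∀ s : Finset (Fin n →₀ ℕ), r.support ⊆ s →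
        (∑ m ∈ r.support, if τ m = t then monomial m (coeff m r) else 0) =
        ∑ m ∈ s, if τ m = t then monomial m (coeff m r) else 0 := by
      intro r s hs
      refine sum_subset hs fun m _ hm => ?_
      rw [notMem_support_iff.mp hm, monomial_zero, ite_self]
    rw [h (p + q) (p.support ∪ q.support) (support_add), h p (p.support ∪ q.support)
      subset_union_left, h q (p.support ∪ q.support) subset_union_right, ← sum_add_distrib]
    refine sum_congr rfl fun m _ => ?_
    split_ifs
    · rw [coeff_add, map_add]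
    · rw [add_zero]

theorem coeff_flt (τ : (Fin n →₀ ℕ) → Fin n) (t : Fin n) (p : MvPolynomial (Fin n) k)
    (m : Fin n →₀ ℕ) : coeff m (flt τ t p) = if τ m = t then coeff m p else 0 := by
  change coeff m (∑ m ∈ p.support, if τ m = t then monomial m (coeff m p) else 0) = _
  rw [coeff_sum, sum_eq_single m]
  · split_ifs
    · rw [coeff_monomial, if_pos rfl]
    · rfl
  · intro m' _ hm'
    split_ifs
    · rw [coeff_monomial, if_neg hm']
    · rfl
  · intro hm
    rw [notMem_support_iff.mp hm, monomial_zero, ite_self, coeff_zero]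

theorem sum_flt (τ : (Fin n →₀ ℕ) → Fin n) (p : MvPolynomial (Fin n) k) :
    ∑ t, flt τ t p = p := by
  ext m
  rw [coeff_sum]
  simp only [coeff_flt]
  simp

theorem exists_div {w : Fin n →₀ ℕ} {J : Set (Fin n →₀ ℕ)} {p : MvPolynomial (Fin n) k}
    (h : ∀ m ∈ p.support, ∃ a ∈ J, m = w + a) :
    ∃ r : MvPolynomial (Fin n) k, (∀ m ∈ r.support, m ∈ J) ∧ monomial w 1 * r = p := by
  refine ⟨p.divMonomial w, fun m hm => ?_, ?_⟩
  · rw [mem_support_iff, coeff_divMonomial] at hm
    obtain ⟨a, ha, h'⟩ := h _ (mem_support_iff.mpr hm)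
    rw [add_left_cancel h']
    exact ha
  · ext m
    rw [coeff_monomial_mul', one_mul]
    split_ifs with hm
    · rw [coeff_divMonomial, add_tsub_cancel_of_le hm]
    · by_contra hc
      obtain ⟨a, -, h'⟩ := h m (mem_support_iff.mpr fun h0 => hc h0.symm)
      exact hm (h' ▸ le_self_add)

/-- The main lemma: a cocycle is a coboundary if on each monomial of it some vertex can be
removed. -/
theorem exists_primitive {J : Set (Fin n →₀ ℕ)} {φ : Finset (Fin n) → MvPolynomial (Fin n) k}
    (hd : dd (X : Fin n → MvPolynomial (Fin n) k) φ = 0) (τ : (Fin n →₀ ℕ) → Fin n)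
    (H : ∀ G, ∀ a ∈ (φ G).support, τ (a + ee Gᶜ) ∈ G →
      ∃ a' ∈ J, a = Finsupp.single (τ (a + ee Gᶜ)) 1 + a') :
    ∃ ψ : Finset (Fin n) → MvPolynomial (Fin n) k,
      (∀ F, ∀ m ∈ (ψ F).support, m ∈ J) ∧ dd (X : Fin n → MvPolynomial (Fin n) k) ψ = φ := by
  set δ : (Finset (Fin n) → MvPolynomial (Fin n) k) → Finset (Fin n) → MvPolynomial (Fin n) k :=
    dd (fun _ => (1 : MvPolynomial (Fin n) k)) with hδ
  have hΦ : ∀ f : Finset (Fin n) → MvPolynomial (Fin n) k,
      δ (fun F => monomial (ee Fᶜ) 1 * f F) =
      fun F => monomial (ee Fᶜ) 1 * dd (X : Fin n → MvPolynomial (Fin n) k) f F := by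
    intro f
    funext F
    rw [hδ, dd, dd, mul_sum]
    refine sum_congr rfl fun i hi => ?_
    rw [one_smul, mul_smul_comm, ee_compl_erase hi, ← one_mul (1 : k), ← monomial_mul, smul_eq_mul,
      ← mul_assoc, mul_one, mul_comm (monomial _ _) (X i)]
    rfl
  set θ : Finset (Fin n) → MvPolynomial (Fin n) k := fun F => monomial (ee Fᶜ) 1 * φ F with hθ
  have hθd : δ θ = 0 := by
    rw [hθ, hΦ, hd]
    funext F
    simp
  have hP : ∀ t, δ (ct t (fun G => flt τ t (θ G))) = fun G => flt τ t (θ G) := by
    intro t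
    funext F
    have h1 := homotopy (fun _ => (1 : MvPolynomial (Fin n) k)) t (fun G => flt τ t (θ G)) F
    have h2 : dd (fun _ => (1 : MvPolynomial (Fin n) k)) (fun G => flt τ t (θ G)) =
        fun G => flt τ t (δ θ G) := by
      funext G
      rw [hδ, dd, dd, map_sum]
      refine sum_congr rfl fun i _ => ?_
      rw [one_smul, one_smul, map_zsmul]
    rw [h2, hθd] at h1
    simpa [ct] using h1
  have hη : δ (fun F => ∑ t, ct t (fun G => flt τ t (θ G)) F) = θ := by
    have h1 : δ (fun F => ∑ t, ct t (fun G => flt τ t (θ G)) F) =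
        fun F => ∑ t, δ (ct t (fun G => flt τ t (θ G))) F := by
      funext F
      simp only [hδ, dd, one_smul, smul_sum]
      rw [sum_comm]
    rw [h1]
    funext F
    simp only [hP]
    exact sum_flt τ (θ F)
  have hdiv : ∀ F, ∃ r : MvPolynomial (Fin n) k, (∀ m ∈ r.support, m ∈ J) ∧
      monomial (ee Fᶜ) 1 * r = ∑ t, ct t (fun G => flt τ t (θ G)) F := by
    intro F
    refine exists_div fun m hm => ?_
    rw [mem_support_iff, coeff_sum] at hm
    obtain ⟨t, -, ht⟩ := exists_ne_zero_of_sum_ne_zero hm
    rw [ct] at ht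
    split_ifs at ht with htF
    · exact absurd (coeff_zero m) ht
    · have h1 : coeff m (flt τ t (θ (insert t F))) ≠ 0 := by
        intro h0
        apply ht
        have h2 : sg t F • flt τ t (θ (insert t F)) =
            (C (sg t F : k)) * flt τ t (θ (insert t F)) := by
          rw [zsmul_eq_mul]; simp
        rw [h2, coeff_C_mul, h0, mul_zero]
      rw [coeff_flt] at h1
      split_ifs at h1 with hτ
      · rw [hθ] at h1
        dsimp only at h1
        rw [coeff_monomial_mul'] at h1
        split_ifs at h1 with hle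
        · have h3 := H (insert t F) (m - ee (insert t F)ᶜ)
            (mem_support_iff.mpr fun h0 => h1 (by rw [h0, mul_zero]))
          rw [tsub_add_cancel_of_le hle, hτ] at h3
          obtain ⟨a', ha', h4⟩ := h3 (mem_insert_self t F)
          refine ⟨a', ha', ?_⟩
          rw [ee_compl_insert htF, add_right_comm, ← h4, tsub_add_cancel_of_le hle]
        · exact absurd rfl h1
      · exact absurd rfl h1
  choose ψ hψ hψ' using hdiv
  refine ⟨ψ, hψ, ?_⟩
  have h1 := hΦ ψ
  simp only [hψ'] at h1
  rw [hη] at h1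
  funext F
  have h2 := congrFun h1 F
  rw [hθ] at h2
  have h3 : (monomial (ee Fᶜ) (1 : k)) ≠ 0 := by
    rw [Ne, monomial_eq_zero]
    exact one_ne_zero
  exact (mul_left_cancel₀ h3 h2).symm

theorem hv_poly {j : ℕ} (hj : j < n) :
    HV (X : Fin n → MvPolynomial (Fin n) k) (MvPolynomial (Fin n) k) j := by
  classical
  intro f hf hd
  have : NeZero n := ⟨by omega⟩
  obtain ⟨ψ, -, h⟩ := exists_primitive (J := Set.univ) hd
    (fun b => if h : ∃ t, 1 ≤ b t then h.choose else 0) (by
      intro G a ha hG
      have hcard : G.card = j := by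
        by_contra hc
        rw [hf G hc] at ha
        simp at ha
      obtain ⟨s, hs⟩ : ∃ s, s ∉ G := by
        by_contra hc
        push Not at hc
        have : G = univ := by ext s; simp [hc s]
        rw [this, card_univ, Fintype.card_fin] at hcard
        omega
      have hex : ∃ t, 1 ≤ (a + ee Gᶜ) t := ⟨s, by
        rw [Finsupp.add_apply, ee_apply, if_pos (by simpa using hs)]; omega⟩
      rw [dif_pos hex] at hG ⊢
      have h1 := hex.choose_spec
      refine ⟨a - Finsupp.single hex.choose 1, trivial, ?_⟩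
      rw [Finsupp.add_apply, ee_apply, if_neg (by simpa using hG)] at h1
      rw [add_tsub_cancel_of_le]
      rw [Finsupp.single_le_iff]
      omega)
  exact ⟨ψ, h⟩

theorem exists_in_ideal {L : Set (Finset (Fin n))} {q : ℕ} (hL : ∀ F ∈ L, F.card = q) {j : ℕ}
    (hj : j + 1 ≤ q) (hn : 0 < n) {φ : Finset (Fin n) → MvPolynomial (Fin n) k}
    (hφ : ∀ F, φ F ∈ sqIdeal k L)
    (hc : ∀ F, F.card ≠ j + 1 → φ F = 0) (hd : dd (X : Fin n → MvPolynomial (Fin n) k) φ = 0)
    (hcomb : j + 1 = q → ∀ G, coeff (ee G) (φ G) = 0) :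
    ∃ ψ : Finset (Fin n) → MvPolynomial (Fin n) k, (∀ F, ψ F ∈ sqIdeal k L) ∧ dd (X : Fin n → MvPolynomial (Fin n) k) ψ = φ := by
  classical
  have : NeZero n := ⟨by omega⟩
  obtain ⟨ψ, h1, h2⟩ := exists_primitive (J := {m | ∃ F ∈ L, F ⊆ m.support}) hd
    (fun b => if h : ∃ t, 2 ≤ b t then h.choose else 0) (by
      intro G a ha hG
      have hcard : G.card = j + 1 := by
        by_contra hc'
        rw [hc G hc'] at ha
        simp at ha
      have hex : ∃ t, 2 ≤ (a + ee Gᶜ) t := by
        by_contra hne
        push Not at hne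
        have h1 : a.support ⊆ G := by
          intro t ht
          by_contra htG
          have := hne t
          rw [Finsupp.add_apply, ee_apply, if_pos (by simpa using htG)] at this
          rw [Finsupp.mem_support_iff] at ht
          omega
        obtain ⟨F, hF, hFa⟩ := mem_sqIdeal.mp (hφ G) a ha
        have h2 : F.card = q := hL F hF
        have h3 := card_le_card (hFa.trans h1)
        have h4 : F = G := eq_of_subset_of_card_le (hFa.trans h1) (by omega)
        have h5 : a = ee G := by
          ext t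
          rw [ee_apply]
          have := hne t
          rw [Finsupp.add_apply] at this
          split_ifs with ht
          · have h6 : t ∈ a.support := hFa (h4 ▸ ht)
            rw [Finsupp.mem_support_iff] at h6
            omega
          · by_contra h6
            exact ht (h1 (Finsupp.mem_support_iff.mpr h6))
        rw [mem_support_iff, h5] at ha
        exact ha (hcomb (by omega) G)
      rw [dif_pos hex] at hG ⊢
      have h1 := hex.choose_spec
      rw [Finsupp.add_apply, ee_apply, if_neg (by simpa using hG)] at h1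
      obtain ⟨F, hF, hFa⟩ := mem_sqIdeal.mp (hφ G) a ha
      refine ⟨a - Finsupp.single hex.choose 1, ⟨F, hF, fun t ht => ?_⟩, ?_⟩
      · have h2 := hFa ht
        rw [Finsupp.mem_support_iff] at h2 ⊢
        rw [Finsupp.tsub_apply, Finsupp.single_apply]
        split_ifs with h3
        · rw [h3] at h1
          omega
        · omega
      · rw [add_tsub_cancel_of_le]
        rw [Finsupp.single_le_iff]
        omega)
  exact ⟨ψ, fun F => mem_sqIdeal.mpr (h1 F), h2⟩

end Q52.Lex
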