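import Mathlib
import Pool.Agent.Q52.Lex.Strand

set_option autoImplicit false

/-!
# Koszul cohomology of the quotient by a squarefree monomial ideal generated in one degree
-/

namespace Q52.Lex

open Finset MvPolynomial

variable {n : ℕ} {k : Type*} [Field k]

theorem coeff_zsmul' (z : ℤ) (p : MvPolynomial (Fin n) k) (m : Fin n →₀ ℕ) :
    coeff m (z • p) = z • coeff m p :=
  map_zsmul (coeffAddMonoidHom (R := k) m) z p

theorem coeff_dd (φ : Finset (Fin n) → MvPolynomial (Fin n) k) (F : Finset (Fin n)) :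
    coeff (ee F) (dd (X : Fin n → MvPolynomial (Fin n) k) φ F) = dd (fun _ => (1 : k)) (fun G => coeff (ee G) (φ G)) F := by
  rw [dd, dd, coeff_sum]
  refine sum_congr rfl fun i hi => ?_
  rw [coeff_zsmul', smul_eq_mul, one_smul, ee_erase hi, coeff_X_mul]

theorem coeff_sq {L : Set (Finset (Fin n))} {q : ℕ} (hL : ∀ F ∈ L, F.card = q)
    {p : MvPolynomial (Fin n) k} (hp : p ∈ sqIdeal k L) {G : Finset (Fin n)} (hG : G.card ≤ q)
    (hGL : G ∉ L) : coeff (ee G) p = 0 := by
  by_contra h
  obtain ⟨F, hF, hFG⟩ := mem_sqIdeal.mp hp _ (mem_support_iff.mpr h)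
  have h1 : F ⊆ G := fun t ht => by
    have h2 := hFG ht
    rw [Finsupp.mem_support_iff, ee_apply] at h2
    by_contra h3
    exact h2 (if_neg h3)
  have h2 := hL F hF
  have h3 := eq_of_subset_of_card_le h1 (by omega)
  exact hGL (h3 ▸ hF)

/-- Vanishing of the Koszul cohomology of the quotient in degrees less than `q`, where in degree
`q - 1` the hypothesis is that there is no cocycle with support in `L`. -/
theorem hv_quot {L : Set (Finset (Fin n))} {q : ℕ} (hL : ∀ F ∈ L, F.card = q) (hq : q ≤ n)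
    {j : ℕ} (hj : j + 1 ≤ q)
    (hc : j + 1 = q → ∀ ψ : Finset (Fin n) → k, (∀ F, F ∉ L → ψ F = 0) →
      dd (fun _ => (1 : k)) ψ = 0 → ψ = 0) :
    HV (X : Fin n → MvPolynomial (Fin n) k) (MvPolynomial (Fin n) k ⧸ sqIdeal k L) j := by
  intro f hf hd
  choose f' hf' using fun F => Submodule.Quotient.mk_surjective _ (f F)
  have h1 : (fun F => (Submodule.mkQ (sqIdeal k L)) (tr j f' F)) = f := by
    funext G
    rw [tr]
    split_ifs with h
    · exact hf' G
    · rw [map_zero, hf G h]
  have h2 : ∀ F, dd (X : Fin n → MvPolynomial (Fin n) k) (tr j f') F ∈ sqIdeal k L := by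
    intro F
    rw [← Submodule.Quotient.mk_eq_zero]
    have h3 := dd_map (Submodule.mkQ (sqIdeal k L)) X (tr j f')
    rw [h1, hd] at h3
    exact (congrFun h3 F).symm
  obtain ⟨ψ, hψ, hψ'⟩ := exists_in_ideal (k := k) hL hj (by omega) h2
    (fun F hF => by rw [dd_tr, tr, if_neg hF]) (dd_dd _ _) (by
      intro hjq G
      have h4 : (fun G => coeff (ee G) (dd (X : Fin n → MvPolynomial (Fin n) k) (tr j f') G)) =
          0 := by
        refine hc hjq _ (fun F hF => ?_) ?_
        · by_cases hF' : F.card = j + 1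
          · exact coeff_sq hL (h2 F) (by omega) hF
          · rw [dd_tr, tr, if_neg hF', coeff_zero]
        · funext F
          rw [← coeff_dd, dd_dd]
          simp
      exact congrFun h4 G)
  obtain ⟨g, hg⟩ := hv_poly (k := k) (n := n) (j := j) (by omega) (tr j f' - tr j ψ)
    (fun F hF => by rw [Pi.sub_apply, tr, tr, if_neg hF, if_neg hF, sub_zero]) (by
      rw [dd_sub, dd_tr (f := ψ), hψ', dd_tr, sub_eq_zero]
      funext F
      simp only [tr]
      split_ifs <;> rfl)
  refine ⟨fun F => Submodule.mkQ (sqIdeal k L) (g F), ?_⟩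
  rw [dd_map, hg, ← h1]
  funext F
  rw [Pi.sub_apply, map_sub, sub_eq_self, tr]
  split_ifs
  · exact (Submodule.Quotient.mk_eq_zero _).mpr (hψ F)
  · exact map_zero _

/-- Nonvanishing of the Koszul cohomology of the quotient in degree `q - 1`. -/
theorem not_hv {L : Set (Finset (Fin n))} {q : ℕ} (hL : ∀ F ∈ L, F.card = q) (hq : 1 ≤ q)
    (c : Finset (Fin n) → k) (hc : ∀ F, F.card ≠ q - 1 → c F = 0)
    (hcL : ∀ F, F ∉ L → dd (fun _ => (1 : k)) c F = 0) (h0 : dd (fun _ => (1 : k)) c ≠ 0) :
    ¬ HV (X : Fin n → MvPolynomial (Fin n) k) (MvPolynomial (Fin n) k ⧸ sqIdeal k L) (q - 1) := by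
  intro hv
  have h1 : ∀ F, dd (X : Fin n → MvPolynomial (Fin n) k) (fun F => monomial (ee F) (c F)) F =
      monomial (ee F) (dd (fun _ => (1 : k)) c F) := by
    intro F
    rw [dd, dd, map_sum]
    refine sum_congr rfl fun i hi => ?_
    rw [map_zsmul, one_smul, smul_eq_mul, ee_erase hi, X, monomial_mul, one_mul]
  obtain ⟨g, hg⟩ := hv (fun F => Submodule.mkQ (sqIdeal k L) (monomial (ee F) (c F)))
    (fun F hF => by rw [hc F hF, map_zero, map_zero]) (by
      rw [dd_map]
      funext F
      rw [h1, Pi.zero_apply]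
      refine (Submodule.Quotient.mk_eq_zero _).mpr ?_
      by_cases hF : F ∈ L
      · rw [mem_sqIdeal]
        intro m hm
        refine ⟨F, hF, fun t ht => ?_⟩
        have h2 := support_monomial_subset hm
        rw [mem_singleton] at h2
        rw [h2, Finsupp.mem_support_iff, ee_apply, if_pos ht]
        exact one_ne_zero
      · rw [hcL F hF, map_zero]
        exact zero_mem _)
  choose g' hg' using fun F => Submodule.Quotient.mk_surjective _ (g F)
  have h2 : ∀ F, monomial (ee F) (c F) - dd (X : Fin n → MvPolynomial (Fin n) k) g' F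
      ∈ sqIdeal k L := by
    intro F
    rw [← Submodule.Quotient.mk_eq_zero, Submodule.Quotient.mk_sub, sub_eq_zero]
    have h3 := dd_map (Submodule.mkQ (sqIdeal k L)) (X : Fin n → MvPolynomial (Fin n) k) g'
    have h4 : (fun F => (Submodule.mkQ (sqIdeal k L)) (g' F)) = g := funext hg'
    rw [h4, hg] at h3
    exact congrFun h3 F
  apply h0
  funext F
  have h3 := h1 F
  have h4 : (fun F => monomial (ee F) (c F)) =
      (fun F => monomial (ee F) (c F) - dd (X : Fin n → MvPolynomial (Fin n) k) g' F) +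
        dd (X : Fin n → MvPolynomial (Fin n) k) g' := by
    funext F
    rw [Pi.add_apply, sub_add_cancel]
  rw [h4, dd_add, dd_dd, add_zero] at h3
  have h5 := congrArg (coeff (ee F)) h3
  rw [coeff_monomial, if_pos rfl, coeff_dd] at h5
  by_cases hF : F.card = q
  · rw [← h5, Pi.zero_apply, dd]
    refine sum_eq_zero fun i hi => ?_
    rw [coeff_sq hL (h2 _) (by rw [card_erase_of_mem hi]; omega), smul_zero, smul_zero]
    intro hmem
    have := hL _ hmem
    have := card_pos.mpr ⟨i, hi⟩
    rw [card_erase_of_mem hi] at *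
    omega
  · rw [← tr_eq hc, dd_tr, tr, if_neg (by omega)]
    rfl

end Q52.Lex
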