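import Mathlib
import Pool.Agent.Q52.Lex.Comb

set_option autoImplicit false

/-!
# There is no cocycle on a segment which does not contain `w₀`
-/

namespace Q52.Lex

open Finset

variable {m : ℕ} {k : Type*} [Field k]

theorem pr_zero : pr (0 : Fin (m + 1)) = Fin.last m := by
  rw [pr, dif_pos (by simp)]

theorem pr_val {i : Fin (m + 1)} (h : i ≠ 0) : (pr i : ℕ) + 1 = i := by
  have h1 : (i : ℕ) ≠ 0 := fun hc => h (Fin.ext hc)
  rw [pr, dif_neg h1]
  simp only
  omega

theorem wf_lex : WellFounded (fun A B : Finset (Fin (m + 1)) => LexGT A B) := by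
  have h1 : IsTrans (Finset (Fin (m + 1))) (fun A B => LexGT A B) := ⟨fun _ _ _ h h' => h.trans h'⟩
  have h2 : Std.Irrefl (fun A B : Finset (Fin (m + 1)) => LexGT A B) := ⟨fun _ h => h.ne rfl⟩
  exact Finite.wellFounded_of_trans_of_irrefl _

variable {u' : Finset (Fin (m + 1))} {t : Fin (m + 1) → Fin (m + 1)}

theorem exists_min {P : Fin (m + 1) → Prop} (h : ∃ i, P i) : ∃ i, P i ∧ ∀ j < i, ¬ P j := by
  classical
  have h1 : (univ.filter P).Nonempty := by
    obtain ⟨i, hi⟩ := h
    exact ⟨i, mem_filter.mpr ⟨mem_univ _, hi⟩⟩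
  refine ⟨_, (mem_filter.mp (min'_mem _ h1)).2, fun j hj hc => ?_⟩
  exact absurd (min'_le _ j (mem_filter.mpr ⟨mem_univ _, hc⟩)) (not_le.mpr hj)

theorem image_gt (h0 : t 0 = 0) (ht : ∀ i ∈ u', t i = i ∨ t i = pr i)
    (hinj : Set.InjOn t u') (hex : ∃ i ∈ u', t i ≠ i) : LexGT (u'.image t) u' := by
  obtain ⟨i, ⟨hi, hti⟩, hmin⟩ := exists_min (P := fun i => i ∈ u' ∧ t i ≠ i)
    (by obtain ⟨i, h1, h2⟩ := hex; exact ⟨i, h1, h2⟩)
  have hi0 : i ≠ 0 := fun h => hti (by rw [h, h0])
  have hp : t i = pr i := (ht i hi).resolve_left hti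
  have hv := pr_val hi0
  have hfix : ∀ j ∈ u', j < i → t j = j := by
    intro j hj hji
    by_contra hc
    exact hmin j hji ⟨hj, hc⟩
  have hbig : ∀ l ∈ u', i < l → pr i < t l := by
    intro l hl hil
    rw [Fin.lt_def] at hil ⊢
    rcases ht l hl with h | h
    · rw [h]; omega
    · have := pr_val (i := l) (fun hc => by rw [hc] at hil; simp at hil)
      rw [h]; omega
  refine ⟨pr i, mem_image.mpr ⟨i, hi, hp⟩, fun hc => ?_, fun x hx => ⟨fun h => ?_, fun h => ?_⟩⟩
  · have h1 : pr i < i := by rw [Fin.lt_def]; omega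
    have h2 := hfix _ hc h1
    exact h1.ne (hinj hc hi (h2.trans hp.symm))
  · obtain ⟨l, hl, rfl⟩ := mem_image.mp h
    rcases lt_trichotomy l i with h1 | h1 | h1
    · rw [hfix l hl h1]; exact hl
    · rw [h1, hp] at hx
      exact absurd hx (lt_irrefl _)
    · exact absurd (hbig l hl h1) (not_lt.mpr hx.le)
  · refine mem_image.mpr ⟨x, h, hfix x h ?_⟩
    rw [Fin.lt_def] at hx ⊢
    omega

theorem image_le (hu0 : 0 ∈ u') (h0 : t 0 = Fin.last m) (ht : ∀ i ∈ u', t i = i ∨ t i = pr i) :
    LexGE (shift u') (u'.image t) := by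
  by_cases hall : ∀ i ∈ u', i ≠ 0 → t i = pr i
  · left
    ext x
    rw [mem_shift, mem_image]
    constructor
    · rintro (rfl | ⟨i, hi, hi'⟩)
      · exact ⟨0, hu0, h0⟩
      · have hi0 : i ≠ 0 := fun h => by rw [h] at hi'; simp at hi'
        refine ⟨i, hi, ?_⟩
        have := pr_val hi0
        rw [hall i hi hi0]
        exact Fin.ext (by omega)
    · rintro ⟨i, hi, rfl⟩
      by_cases hi0 : i = 0
      · left; rw [hi0, h0]
      · right
        exact ⟨i, hi, by rw [hall i hi hi0]; exact (pr_val hi0).symm⟩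
  · right
    push Not at hall
    obtain ⟨i, ⟨hi, hi0, hti⟩, hmin⟩ := exists_min
      (P := fun i => i ∈ u' ∧ i ≠ 0 ∧ t i ≠ pr i) (by
        obtain ⟨i, h1, h2, h3⟩ := hall; exact ⟨i, h1, h2, h3⟩)
    have hp : t i = i := (ht i hi).resolve_right hti
    have hv := pr_val hi0
    have hfix : ∀ j ∈ u', j ≠ 0 → j < i → t j = pr j := by
      intro j hj hj0 hji
      by_contra hc
      exact hmin j hji ⟨hj, hj0, hc⟩
    have hbig : ∀ l ∈ u', i < l → pr i < t l := by
      intro l hl hil
      rw [Fin.lt_def] at hil ⊢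
      rcases ht l hl with h | h
      · rw [h]; omega
      · have := pr_val (i := l) (fun hc => by rw [hc] at hil; simp at hil)
        rw [h]; omega
    have hlast := i.2
    refine ⟨pr i, mem_shift.mpr (Or.inr ⟨i, hi, hv.symm⟩), fun hc => ?_,
      fun x hx => ⟨fun h => ?_, fun h => ?_⟩⟩
    · obtain ⟨l, hl, hl'⟩ := mem_image.mp hc
      rcases lt_trichotomy l i with h1 | h1 | h1
      · by_cases hl0 : l = 0
        · rw [hl0, h0, Fin.ext_iff, Fin.val_last] at hl'
          omega
        · rw [hfix l hl hl0 h1] at hl'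
          have := pr_val hl0
          rw [Fin.ext_iff] at hl'
          rw [Fin.lt_def] at h1
          omega
      · rw [h1, hp] at hl'
        rw [Fin.ext_iff] at hl'
        omega
      · exact (hbig l hl h1).ne' hl'
    · rw [Fin.lt_def] at hx
      rcases mem_shift.mp h with h1 | ⟨l, hl, hl'⟩
      · rw [h1, Fin.val_last] at hx
        omega
      · have hl0 : l ≠ 0 := fun h => by rw [h] at hl'; simp at hl'
        refine mem_image.mpr ⟨l, hl, ?_⟩
        rw [hfix l hl hl0 (by rw [Fin.lt_def]; omega)]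
        have := pr_val hl0
        exact Fin.ext (by omega)
    · obtain ⟨l, hl, rfl⟩ := mem_image.mp h
      rw [mem_shift]
      rcases lt_trichotomy l i with h1 | h1 | h1
      · by_cases hl0 : l = 0
        · left; rw [hl0, h0]
        · right
          refine ⟨l, hl, ?_⟩
          rw [hfix l hl hl0 h1]
          exact (pr_val hl0).symm
      · rw [h1, hp, Fin.lt_def] at hx
        omega
      · exact absurd (hbig l hl h1) (not_lt.mpr hx.le)

/-- If `w₀ < v`, there is no nonzero cocycle with support in the segment. -/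
theorem vanish {u v : Finset (Fin (m + 1))} (hm : 1 ≤ m) (h : LexGT v (shift u)) (ψ : Finset (Fin (m + 1)) → k)
    (hψ : ∀ F, F ∉ seg u.card u v → ψ F = 0) (hd : dd (fun _ => (1 : k)) ψ = 0) : ψ = 0 := by
  by_contra hne
  have hex : {F : Finset (Fin (m + 1)) | ψ F ≠ 0}.Nonempty := by
    by_contra hc
    apply hne
    funext F
    by_contra hF
    exact hc ⟨F, hF⟩
  obtain ⟨u', hu', hmax⟩ := wf_lex.has_min _ hex
  have hdt : dd (fun _ => (1 : k)) (ct 0 ψ) = ψ := by
    funext F
    have h2 := homotopy (fun _ => (1 : k)) 0 ψ F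
    rw [hd] at h2
    simpa [ct] using h2
  have hu0 : 0 ∈ u' := by
    by_contra hc
    apply hne
    rw [← hdt]
    have h1 : ct 0 ψ = 0 := by
      funext F
      rw [ct]
      split_ifs with hF
      · rfl
      · have h2 : ψ (insert 0 F) = 0 := by
          by_contra h3
          refine hmax _ h3 ⟨0, mem_insert_self _ _, hc, fun t ht => ?_⟩
          exact absurd ht (Fin.not_lt_zero t)
        rw [h2, smul_zero]
        rfl
    rw [h1]
    funext F
    simp [dd]
  have hseg : u' ∈ seg u.card u v := by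
    by_contra hc
    exact hu' (hψ u' hc)
  apply hu'
  refine iter u' ψ hd (fun i _ => ?_) fun t ht hinj hex => ?_
  · by_cases hi : i = 0
    · rw [hi, pr_zero]
      intro hc
      rw [Fin.ext_iff] at hc
      simp at hc
      omega
    · have := pr_val hi
      intro hc
      rw [hc] at this
      omega
  · rcases ht 0 hu0 with h1 | h1
    · by_contra h2
      exact hmax _ h2 (image_gt h1 ht hinj hex)
    · rw [pr_zero] at h1
      apply hψ
      intro hmem
      have h2 : LexGE (shift u) (shift u') := shift_mono hu0 hseg.2.1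
      have h3 : LexGT v (u'.image t) := h.trans_ge (h2.trans (image_le hu0 h1 ht))
      exact h3.not_ge hmem.2.2

end Q52.Lex
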