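import Mathlib
import Pool.Agent.Q52.Lex.Quot
import Pool.Agent.Q52.Lex.Vanish

set_option autoImplicit false

/-!
# The depth of the quotient by a squarefree lexsegment ideal
-/

namespace Q52.Lex

open Finset MvPolynomial RingTheory.Sequence

/-- The depth of `M` with respect to the ideal `I` is `d`: the number `d` is the largest length of
an `M`-regular sequence of elements of `I`. -/
def HasDepth {R : Type*} [CommRing R] (I : Ideal R) (M : Type*) [AddCommGroup M] [Module R M]
    (d : ℕ) : Prop :=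
  IsGreatest {r : ℕ | ∃ rs : List R, rs.length = r ∧ (∀ a ∈ rs, a ∈ I) ∧ IsRegular M rs} d

variable {n : ℕ} {k : Type*} [Field k]

theorem smul_top_ne {L : Set (Finset (Fin n))} {q : ℕ} (hL : ∀ F ∈ L, F.card = q) (hq : 1 ≤ q) :
    Ideal.span (Set.range (X : Fin n → MvPolynomial (Fin n) k)) •
      (⊤ : Submodule (MvPolynomial (Fin n) k) (MvPolynomial (Fin n) k ⧸ sqIdeal k L)) ≠ ⊤ := by
  intro h
  rw [Ideal.smul_top_eq_map, Submodule.restrictScalars_eq_top_iff] at h
  have h1 := congrArg (Ideal.comap (algebraMap (MvPolynomial (Fin n) k)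
    (MvPolynomial (Fin n) k ⧸ sqIdeal k L))) h
  rw [Ideal.Quotient.algebraMap_eq, Ideal.comap_map_of_surjective' _ Ideal.Quotient.mk_surjective,
    Ideal.mk_ker, Ideal.comap_top] at h1
  have h2 : Ideal.span (Set.range (X : Fin n → MvPolynomial (Fin n) k)) ⊔ sqIdeal k L ≤
      RingHom.ker (constantCoeff : MvPolynomial (Fin n) k →+* k) := by
    refine sup_le ?_ ?_
    · rw [Ideal.span_le]
      rintro _ ⟨i, rfl⟩
      rw [SetLike.mem_coe, RingHom.mem_ker, constantCoeff_X]
    · rw [sqIdeal, Ideal.span_le]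
      rintro _ ⟨F, hF, rfl⟩
      obtain ⟨i, hi⟩ : F.Nonempty := card_pos.mp (by rw [hL F hF]; omega)
      rw [SetLike.mem_coe, RingHom.mem_ker, map_prod]
      exact prod_eq_zero hi (by simp)
  rw [h1] at h2
  have h3 : (1 : MvPolynomial (Fin n) k) ∈
      RingHom.ker (constantCoeff : MvPolynomial (Fin n) k →+* k) := h2 trivial
  rw [RingHom.mem_ker, map_one] at h3
  exact one_ne_zero h3

theorem hasDepth_iff {m q : ℕ} (hq : 1 ≤ q) {u v : Finset (Fin (m + 1))} (hu : u.card = q)
    (hv : v.card = q) (h0 : 0 ∈ u) (h0v : 0 ∉ v) :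
    HasDepth (Ideal.span (Set.range (X : Fin (m + 1) → MvPolynomial (Fin (m + 1)) k)))
      (MvPolynomial (Fin (m + 1)) k ⧸ sqIdeal k (seg q u v)) (q - 1) ↔ LexGE (shift u) v := by
  have hL : ∀ F ∈ seg q u v, F.card = q := fun F hF => hF.1
  have hqm : q ≤ m := by
    have h1 : v ⊆ univ.erase 0 := fun x hx =>
      mem_erase.mpr ⟨fun h => h0v (h ▸ hx), mem_univ x⟩
    have h2 := card_le_card h1
    rw [card_erase_of_mem (mem_univ _), card_univ, Fintype.card_fin] at h2
    omega
  constructor
  · intro h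
    by_contra hc
    have h1 := not_lexGE hc
    have h2 := exists_regular (x := (X : Fin (m + 1) → MvPolynomial (Fin (m + 1)) k)) q
      (MvPolynomial (Fin (m + 1)) k ⧸ sqIdeal k (seg q u v)) (smul_top_ne hL hq)
      (fun j hj => hv_quot hL (by omega) (by omega) fun _ ψ hψ hd => by
        subst hu
        exact vanish (by omega) h1 ψ hψ hd)
    have h3 := h.2 h2
    omega
  · intro h
    refine ⟨?_, ?_⟩
    · exact exists_regular (x := (X : Fin (m + 1) → MvPolynomial (Fin (m + 1)) k)) (q - 1)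
        (MvPolynomial (Fin (m + 1)) k ⧸ sqIdeal k (seg q u v)) (smul_top_ne hL hq)
        (fun j hj => hv_quot hL (by omega) (by omega) fun h => by omega)
    · rintro r ⟨rs, hlen, hmem, hreg⟩
      by_contra hr
      push Not at hr
      subst hu
      obtain ⟨c, hc1, hc2, hc3⟩ := exists_cochain (k := k) h0 h
      exact not_hv hL hq c hc1 hc2 hc3
        (hv_of_regular rs _ hmem hreg.toIsWeaklyRegular (u.card - 1) (by omega))

end Q52.Lex
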